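import Mathlib

namespace Pool.Agent.Results.MP_906af0_co.Yes

open Real Relation

variable {n : ℕ}

/-- The Lorentz form. -/
def B (x y : Fin (n + 1) → ℝ) : ℝ := x 0 * y 0 - ∑ i : Fin n, x i.succ * y i.succ

/-- Hyperbolic `n`-space, hyperboloid model. -/
def H (n : ℕ) : Type := {x : Fin (n + 1) → ℝ // B x x = 1 ∧ 0 < x 0}

noncomputable def ρ (P Q : H n) : ℝ := arcosh (B P.1 Q.1)

/-- The unit tangent vector at `P` of the geodesic from `P` to `Q`. -/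
noncomputable def u (P Q : H n) : Fin (n + 1) → ℝ :=
  (sinh (ρ P Q))⁻¹ • (Q.1 - cosh (ρ P Q) • P.1)

def IsDiscrete (C : Set (H n)) : Prop := ∀ P r, {Q ∈ C | ρ P Q ≤ r}.Finite

def Balanced (C : Set (H n)) : Prop :=
  ∀ P ∈ C, ∀ d > 0, ∑ᶠ Q ∈ {Q ∈ C | ρ P Q = d}, u P Q = 0

def Symm (C : Set (H n)) (g : H n ≃ H n) : Prop := (∀ x y, ρ (g x) (g y) = ρ x y) ∧ g '' C = C

def GroupBalanced (C : Set (H n)) : Prop := ∀ P ∈ C, ∃ g, Symm C g ∧ {x | g x = x} = {P}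

lemma B3 (x y : Fin 4 → ℝ) : B x y = x 0 * y 0 - (x 1 * y 1 + x 2 * y 2 + x 3 * y 3) := by
  simp [B, Fin.sum_univ_three]

lemma key (x y : H 3) : x.1 0 ^ 2 + y.1 0 ^ 2 ≤ 2 * x.1 0 * y.1 0 * B x.1 y.1 := by
  have a := x.2.1
  have b := y.2.1
  rw [B3] at a b ⊢
  have : 2 * x.1 0 * y.1 0 * (x.1 0 * y.1 0 - (x.1 1 * y.1 1 + x.1 2 * y.1 2 + x.1 3 * y.1 3)) -
      x.1 0 ^ 2 - y.1 0 ^ 2 = (y.1 0 * x.1 1 - x.1 0 * y.1 1) ^ 2 +
      (y.1 0 * x.1 2 - x.1 0 * y.1 2) ^ 2 + (y.1 0 * x.1 3 - x.1 0 * y.1 3) ^ 2 := by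
    linear_combination y.1 0 ^ 2 * a + x.1 0 ^ 2 * b
  have := this.ge.trans' (by positivity)
  linarith

lemma one (x y : H 3) : 1 ≤ B x.1 y.1 := le_of_mul_le_mul_left
  (by nlinarith [key x y, sq_nonneg (x.1 0 - y.1 0)]) (mul_pos x.2.2 y.2.2)

lemma bd (x : H 3) (i : Fin 4) : |x.1 i| ≤ x.1 0 := by
  have a := x.2.1
  rw [B3] at a
  refine abs_le_of_sq_le_sq ?_ x.2.2.le
  fin_cases i <;> simp <;> nlinarith

abbrev E := Fin 3 → ℤˣ

def M : Option E → Matrix (Fin 4) (Fin 4) ℝ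
  | none => !![38, -11, -19, -31; 11, -4, -5, -9; 19, -5, -9, -16; 31, -9, -16, -25]
  | some e => !![1, 0, 0, 0; 0, (e 0 : ℤ), 0, 0; 0, 0, (e 1 : ℤ), 0; 0, 0, 0, (e 2 : ℤ)]

lemma Mn (x : Fin 4 → ℝ) : (M none).mulVec x = ![38 * x 0 - 11 * x 1 - 19 * x 2 - 31 * x 3,
    11 * x 0 - 4 * x 1 - 5 * x 2 - 9 * x 3, 19 * x 0 - 5 * x 1 - 9 * x 2 - 16 * x 3,
    31 * x 0 - 9 * x 1 - 16 * x 2 - 25 * x 3] := by
  ext k; fin_cases k <;> simp [M, dotProduct, Fin.sum_univ_four] <;> ring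

lemma Ms (e : E) (x : Fin 4 → ℝ) : (M e).mulVec x =
    ![x 0, (e 0 : ℤ) * x 1, (e 1 : ℤ) * x 2, (e 2 : ℤ) * x 3] := by
  ext k; fin_cases k <;> simp [M, dotProduct, Fin.sum_univ_four]

lemma ee (v : ℤˣ) : ((v : ℤ) : ℝ) * (v : ℤ) = 1 := by
  obtain rfl | rfl := Int.units_eq_one_or v <;> simp

lemma hB (i : Option E) (x y : Fin 4 → ℝ) : B ((M i).mulVec x) ((M i).mulVec y) = B x y := by
  obtain _ | e := i
  · simp [B3, Mn]; ring
  · simp [B3, Ms]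
    linear_combination x 1 * y 1 * ee (e 0) + x 2 * y 2 * ee (e 1) + x 3 * y 3 * ee (e 2)

def P : H 3 := ⟨![1, 0, 0, 0], by simp [B3]⟩

def Y : H 3 := ⟨![38, 11, 19, 31], by simp [B3]; norm_num⟩

def g (i : Option E) (x : H 3) : H 3 := ⟨(M i).mulVec x.1, (hB _ _ _).trans x.2.1, by
  have := one x Y
  have := x.2.2
  obtain _ | e := i <;> simp [B3, Mn, Ms, Y] at * <;> linarith⟩

lemma gm (i j : E) (x : H 3) : g i (g j x) = g (some (i * j)) x := Subtype.ext (by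
  simp [g, Ms, mul_assoc])

lemma g1 (x : H 3) : g (some 1) x = x := Subtype.ext (by
  ext k; fin_cases k <;> simp [g, Ms])

lemma mm (e : E) : e * e = 1 := funext fun _ => Int.units_mul_self _

lemma gg (i : Option E) (x : H 3) : g i (g i x) = x := by
  obtain _ | e := i
  · refine Subtype.ext (funext fun k => ?_)
    fin_cases k <;> simp [g, Mn] <;> ring
  · rw [gm, mm, g1]

lemma gP (e : E) : g e P = P := Subtype.ext (by simp [g, Ms, P])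

lemma hP : g none P = Y := Subtype.ext (by simp [g, Mn, P, Y])

lemma dj (x : H 3) {e : E} (h : e ≠ 1) (a : B x.1 Y.1 < x.1 0) : x.1 0 < B (g e x).1 Y.1 := by
  have b := x.2.1
  have c := x.2.2
  rw [B3] at b
  have := le_of_abs_le (abs_le_of_sq_le_sq (a := 19 * x.1 2 + 31 * x.1 3) (b := 37 * x.1 0)
    (by nlinarith [sq_nonneg (31 * x.1 2 - 19 * x.1 3), sq_nonneg (x.1 1)]) (by linarith))
  have := le_of_abs_le (abs_le_of_sq_le_sq (a := 11 * x.1 1 + 31 * x.1 3) (b := 37 * x.1 0)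
    (by nlinarith [sq_nonneg (31 * x.1 1 - 11 * x.1 3), sq_nonneg (x.1 2)]) (by linarith))
  have := abs_le.1 (bd x 1)
  have := abs_le.1 (bd x 2)
  have := abs_le.1 (bd x 3)
  have : ¬ (e 0 = 1 ∧ e 1 = 1 ∧ e 2 = 1) := fun k => h (by ext i; fin_cases i <;> simp [k])
  obtain p | p := Int.units_eq_one_or (e 0) <;> obtain q | q := Int.units_eq_one_or (e 1) <;>
    obtain r | r := Int.units_eq_one_or (e 2) <;> simp [g, B3, Ms, Y, p, q, r] at * <;> linarith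

def φ (χ : E → ℤˣ) : Option E → ℤ → ℤ
  | none, a => 1 - a
  | some e, a => χ e * a

def χ (e : E) := e 0 * e 1

def ψ (e : E) := e 0 * e 1 * e 2

abbrev L := H 3 × ℤ × ℤ

def G (i : Option E) (p : L) : L := (g i p.1, φ χ i p.2.1, φ ψ i p.2.2)

lemma Gm (i j : E) (p : L) : G i (G j p) = G (some (i * j)) p := by
  simp only [G, gm, φ, χ, ψ, Pi.mul_apply, Units.val_mul]
  congr 2 <;> ring

lemma G1 (p : L) : G (some 1) p = p := by simp [G, g1, φ, χ, ψ]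

lemma GG (i : Option E) (p : L) : G i (G i p) = p := by
  obtain _ | e := i
  · simp [G, gg, φ]
  · rw [Gm, mm, G1]

def T (p : L) : Prop := ReflTransGen (fun a b => ∃ i, b = G i a) (P, 0, 0) p

def A (p : L) : Prop :=
  ReflTransGen (fun a b => ∃ e : E, e ≠ 1 ∧ b = G none (G e a)) (Y, 1, 1) p

lemma st {x : H 3} {e : E} (h : e ≠ 1) (a : B x.1 Y.1 < x.1 0) :
    B (g none (g e x)).1 Y.1 = x.1 0 ∧ x.1 0 < (g none (g e x)).1 0 := by
  have := dj x h a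
  constructor <;> simp [g, B3, Mn, Ms, Y] at this ⊢ <;> linarith

lemma a1 {p : L} (h : A p) : B p.1.1 Y.1 < p.1.1 0 ∧ (p = (Y, 1, 1) ∨ 38 < p.1.1 0) := by
  induction h with
  | refl => exact ⟨by simp [B3, Y]; norm_num, .inl rfl⟩
  | @tail a _ _ e ih =>
    obtain ⟨i, h, rfl⟩ := e
    have h6 : 38 ≤ a.1.1 0 := ih.2.elim (· ▸ le_rfl) le_of_lt
    obtain ⟨b, c⟩ := st h ih.1
    exact ⟨b.trans_lt c, .inr (h6.trans_lt c)⟩

lemma c1 {p : L} (h : T p) : p = (P, 0, 0) ∨ ∃ e : E, ∃ a, A a ∧ p = G e a := by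
  induction h with
  | refl => exact .inl rfl
  | tail _ e ih =>
    obtain ⟨_ | j, rfl⟩ := e <;> obtain rfl | ⟨i, a, ha, rfl⟩ := ih
    · exact .inr ⟨1, _, .refl, by simp [G, g1, hP, φ, χ, ψ]⟩
    · by_cases e : i = 1
      · rw [e, G1]
        obtain rfl | ⟨b, hb, k, -, rfl⟩ := ha.cases_tail
        · exact .inl (by simp [G, φ, ← hP, gg])
        · exact .inr ⟨k, b, hb, GG _ _⟩
      · exact .inr ⟨1, _, ha.tail ⟨i, e, rfl⟩, (G1 _).symm⟩
    · exact .inl (by simp [G, φ, gP])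
    · exact .inr ⟨_, a, ha, Gm _ _ _⟩

lemma uE {a b : L} {i j : E} (ha : A a) (hb : A b) (h : g i a.1 = g j b.1) :
    i = j ∧ a.1 = b.1 := by
  have e : b.1 = g (some (j * i)) a.1 := by rw [← gm, h, gg]
  have k : j * i = 1 := by
    by_contra k
    have c := dj _ k (a1 ha).1
    have d := (a1 hb).1
    rw [e] at d
    exact lt_asymm c (by simpa [g, Ms] using d)
  rw [k, g1] at e
  exact ⟨by rw [← one_mul i, ← mm j, mul_assoc, k, mul_one], e.symm⟩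

lemma uA {a : L} (ha : A a) : ∀ {b}, A b → a.1 = b.1 → a = b := by
  induction ha with
  | refl => exact fun hb e => ((a1 hb).2.resolve_right (by simp [← e, Y])).symm
  | tail ha e ih =>
    intro b hb k
    obtain rfl | ⟨c, hc, j, -, rfl⟩ := hb.cases_tail
    · exact (a1 (ha.tail e)).2.resolve_right (by simp [k, Y])
    obtain ⟨i, -, rfl⟩ := e
    obtain ⟨rfl, w⟩ := uE ha hc ((gg none _).symm.trans ((congrArg (g none) k).trans (gg _ _)))
    rw [ih hc w]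

lemma uT {a b : L} (ha : T a) (hb : T b) (h : a.1 = b.1) : a = b := by
  have : ∀ {a : L} {e : E}, A a → P ≠ g e a.1 := fun {a e} ha k => by
    have h6 : 38 ≤ a.1.1 0 := (a1 ha).2.elim (· ▸ le_rfl) le_of_lt
    have := congrArg (·.1 0) k
    simp [P, g, Ms] at this
    linarith
  obtain rfl | ⟨i, a, ia, rfl⟩ := c1 ha <;> obtain rfl | ⟨j, b, ib, rfl⟩ := c1 hb
  · rfl
  · exact (this ib h).elim
  · exact (this ia h.symm).elim
  obtain ⟨rfl, k⟩ := uE ia ib h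
  rw [uA ia ib k]

lemma c3 {p : L} (h : T p) :
    p.2.1 % 2 = p.2.2 % 2 ∧ ∃ z : Fin 4 → ℤ, p.1.1 = fun k => (z k : ℝ) := by
  induction h with
  | refl => exact ⟨rfl, ![1, 0, 0, 0], by ext k; fin_cases k <;> simp [P]⟩
  | tail _ e ih =>
    obtain ⟨j, rfl⟩ := e
    obtain ⟨b, z, hz⟩ := ih
    obtain _ | e := j
    · refine ⟨by simp only [G, φ]; omega, ![38 * z 0 - 11 * z 1 - 19 * z 2 - 31 * z 3,
        11 * z 0 - 4 * z 1 - 5 * z 2 - 9 * z 3, 19 * z 0 - 5 * z 1 - 9 * z 2 - 16 * z 3,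
        31 * z 0 - 9 * z 1 - 16 * z 2 - 25 * z 3], funext fun k => ?_⟩
      fin_cases k <;> simp [G, g, Mn, hz]
    · refine ⟨?_, ![z 0, e 0 * z 1, e 1 * z 2, e 2 * z 3], funext fun k => ?_⟩
      · obtain p | p := Int.units_eq_one_or (χ e) <;>
          obtain q | q := Int.units_eq_one_or (ψ e) <;> simp [G, φ, p, q] <;> omega
      · fin_cases k <;> simp [G, g, Ms, hz]

def D (S : Set (ℤ × ℤ)) : Set (H 3) := {x | ∃ l ∈ S, T (x, l)}

lemma disc (S : Set (ℤ × ℤ)) : IsDiscrete (D S) := fun x r => by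
  refine Set.Finite.subset (.preimage Subtype.val_injective.injOn (.image
    (fun (z : Fin 4 → ℤ) k => (z k : ℝ)) (.pi' fun _ => Set.finite_Icc (-⌈2 * x.1 0 * cosh r⌉)
      ⌈2 * x.1 0 * cosh r⌉))) ?_
  rintro y ⟨⟨l, -, h⟩, e⟩
  obtain ⟨-, z, hz⟩ := c3 h
  refine ⟨z, fun k => abs_le.1 ?_, hz.symm⟩
  have e : B x.1 y.1 ≤ cosh r := by
    rw [← cosh_arcosh (one x y), cosh_le_cosh, abs_of_nonneg (arcosh_nonneg (one x y))]
    exact e.trans (le_abs_self r)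
  have : y.1 0 ≤ 2 * x.1 0 * B x.1 y.1 := le_of_mul_le_mul_left
    (by nlinarith [key x y, sq_nonneg (x.1 0)]) y.2.2
  have := ((bd y k).trans this).trans ((mul_le_mul_of_nonneg_left e (by linarith [x.2.2])).trans
    (Int.le_ceil _))
  rw [show y.1 k = z k from congrFun hz k] at this
  exact_mod_cast this

lemma gρ (i : Option E) (x y : H 3) : ρ (g i x) (g i y) = ρ x y := congrArg _ (hB _ _ _)

lemma fin (S : Set (ℤ × ℤ)) (x : H 3) (d : ℝ) : {Q ∈ D S | ρ x Q = d}.Finite :=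
  (disc S x d).subset fun _ e => ⟨e.1, e.2.le⟩

lemma tr (i : Option E) (x : H 3) (d : ℝ) (S : Set (ℤ × ℤ)) :
    ∑ᶠ Q ∈ {Q ∈ D S | ρ (g i x) Q = d}, u (g i x) Q = (M i).mulVec
      (∑ᶠ Q ∈ {Q ∈ D (Prod.map (φ χ i) (φ ψ i) ⁻¹' S) | ρ x Q = d}, u x Q) := by
  refine .trans ?_ ((M i).mulVecLin.toAddMonoidHom.map_finsum_mem _ (fin _ x d)).symm
  refine (finsum_mem_eq_of_bijOn (g i) (Set.InvOn.bijOn (f' := g i) ⟨fun _ _ => gg _ _,
    fun _ _ => gg _ _⟩ ?_ ?_) fun y _ => ?_).symm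
  · rintro y ⟨⟨l, a, b⟩, e⟩
    exact ⟨⟨_, a, b.tail ⟨i, rfl⟩⟩, (gρ _ _ _).trans e⟩
  · rintro y ⟨⟨l, a, b⟩, e⟩
    refine ⟨⟨_, ?_, b.tail ⟨i, rfl⟩⟩, by rw [← gρ i, gg, e]⟩
    exact (congrArg (·.2 ∈ S) (GG i (y, l))).mpr a
  simp only [u, gρ, map_smul, map_sub, LinearMap.toAddMonoidHom_coe]
  rfl

lemma base (d : ℝ) (S : Set (ℤ × ℤ)) (i j : E) (a : Prod.map (φ χ i) (φ ψ i) ⁻¹' S = S)
    (b : Prod.map (φ χ j) (φ ψ j) ⁻¹' S = S) (h : i 1 = -1 ∧ i 2 = -1 ∧ j 0 = -1) :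
    ∑ᶠ Q ∈ {Q ∈ D S | ρ P Q = d}, u P Q = 0 := by
  have a' := tr i P d S
  have b' := tr j P d S
  have c := ((LinearMap.proj (R := ℝ) (φ := fun _ => ℝ) 0).toAddMonoidHom.map_finsum_mem (u P)
    (fin S P d)).trans (finsum_mem_of_eqOn_zero fun y _ => show u P y 0 = 0 by
      simp only [u, ρ, cosh_arcosh (one P y)]; simp [B3, P, Matrix.vecHead])
  rw [gP, a] at a'
  rw [gP, b] at b'
  generalize ∑ᶠ Q ∈ {Q ∈ D S | ρ P Q = d}, u P Q = s at a' b' c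
  have a2 := congrFun a' 2
  have a3 := congrFun a' 3
  have b1 := congrFun b' 1
  simp [Ms, h] at a2 a3 b1 c
  ext k
  fin_cases k <;> simp <;> linarith

lemma bal {p : L} (h : T p) (d : ℝ) : ∀ S : Set ℤ,
    ∑ᶠ Q ∈ {Q ∈ D (Prod.fst ⁻¹' S) | ρ p.1 Q = d}, u p.1 Q = 0 ∧
    ∑ᶠ Q ∈ {Q ∈ D (Prod.snd ⁻¹' S) | ρ p.1 Q = d}, u p.1 Q = 0 := by
  induction h with
  | refl =>
    exact fun S => ⟨base d _ (-1) (-1) (by ext; simp [φ, χ]) (by ext; simp [φ, χ]) (by simp),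
      base d _ ![1, -1, -1] ![-1, 1, -1] (by ext; simp [φ, ψ]) (by ext; simp [φ, ψ]) (by simp)⟩
  | tail _ e ih =>
    obtain ⟨i, rfl⟩ := e
    exact fun S => ⟨(tr i _ d _).trans ((congrArg _ (ih (φ χ i ⁻¹' S)).1).trans
      (Matrix.mulVec_zero _)), (tr i _ d _).trans ((congrArg _ (ih (φ ψ i ⁻¹' S)).2).trans
      (Matrix.mulVec_zero _))⟩

def C : Set (H 3) := D (Prod.fst ⁻¹' {0, 2} ∪ Prod.snd ⁻¹' {1})

lemma mC {p : L} (h : T p) : p.1 ∈ C ↔ (p.2.1 = 0 ∨ p.2.1 = 2) ∨ p.2.2 = 1 :=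
  ⟨fun ⟨_, a, b⟩ => by rw [uT h b rfl]; exact a, fun a => ⟨p.2, a, h⟩⟩

lemma TY (e : E) : T (G e (Y, 1, 1)) :=
  .tail (.single ⟨none, by simp [G, hP, φ]⟩) ⟨e, rfl⟩

lemma ax (f : H 3 ≃ H 3) (h : Symm C f) (fP : f P = P) (z : H 3) (z1 : z.1 1 = 0)
    (z2 : z.1 2 = 0) : f z = z := by
  obtain ⟨f1, f2⟩ := h
  have f1 : ∀ x y, B (f x).1 (f y).1 = B x.1 y.1 := fun x y =>
    arcosh_injOn (one _ _) (one _ _) (f1 x y)
  have t : ∀ x : H 3, x.1 0 = B x.1 P.1 := by simp [B3, P]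
  have s : ∀ j, ψ j = 1 → ∃ i : E, ψ i = 1 ∧ f (g j Y) = g i Y := fun j e => by
    have k : f (g j Y) ∈ C := f2.le ⟨_, (mC (TY j)).2 (by simp [G, φ, e]), rfl⟩
    have w : (f (g j Y)).1 0 = 38 := by
      rw [t, ← fP, f1, ← t]; simp [g, Ms, Y]
    have ⟨l, _, b⟩ := k
    obtain e | ⟨i, a, ha, e⟩ := c1 b <;> have e := congrArg Prod.fst e <;> simp only [G] at e <;>
      rw [e] at w k
    · simp [P] at w
    obtain rfl := (a1 ha).2.resolve_right (by simp [g, Ms] at w; simp [w])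
    refine ⟨i, ?_, e⟩
    have := (mC (TY i)).1 k
    obtain p | p := Int.units_eq_one_or (χ i) <;> simpa [G, φ, p] using this
  obtain ⟨k, k4, hk⟩ := s 1 (by simp [ψ])
  have s' : ∀ j, ψ j = 1 → g k (f (g j Y)) = g j Y := fun j e => by
    obtain ⟨i, -, hi⟩ := s j e
    have := f1 (g (some 1) Y) (g j Y)
    rw [← hB k] at this
    change B (g k _).1 (g k _).1 = _ at this
    rw [hk, hi, gg, gm, g1] at this
    rw [hi, gm]
    congr 2
    have q : ∀ l j : E, (121 * l 0 + 361 * l 1 + 961 * l 2 : ℤ) =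
      121 * j 0 + 361 * j 1 + 961 * j 2 → l = j := by decide
    refine q _ _ (Int.cast_injective (α := ℝ) ?_)
    generalize k * i = l at this
    simp [g, B3, Ms, Y] at this ⊢
    linarith
  have e : ∀ z, g k (f z) = z := fun z => by
    have : ∀ w, g k (f w) = w → B (g k (f z)).1 w.1 = B z.1 w.1 := fun w e => by
      rw [← f1 z w, ← hB k (f z).1 (f w).1]
      exact congrArg (fun v : H 3 => B (g k (f z)).1 v.1) e.symm
    have a := this P (by rw [fP, gP])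
    have b := this _ (s' 1 (by simp [ψ]))
    have c := this _ (s' ![1, -1, -1] (by simp [ψ]))
    have d := this _ (s' ![-1, 1, -1] (by simp [ψ]))
    generalize g k (f z) = w at a b c d
    simp [g, B3, Ms, Y, P] at a b c d
    refine Subtype.ext (funext fun l => ?_)
    fin_cases l <;> simp <;> linarith
  have e : ∀ z, f z = g k z := fun z => by rw [← gg k (f z), e]
  have w : T (G none (G (some ![-1, 1, 1]) (Y, 1, 1))) := (TY _).tail ⟨_, rfl⟩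
  have := (mC (w.tail ⟨k, rfl⟩)).1 (f2.le ⟨_, (mC w).2 (by simp [G, φ, χ]), e _⟩)
  have k2 : k 2 = 1 := by
    obtain p | p := Int.units_eq_one_or (χ k)
    · rw [← k4, ψ, ← χ, p, one_mul]
    · simp [G, φ, p, k4] at this
      simp [χ, ψ] at this
  rw [e]
  refine Subtype.ext (funext fun l => ?_)
  fin_cases l <;> simp [g, Ms, z1, z2, k2]

theorem result : ∃ n > 0, ∃ C : Set (H n), IsDiscrete C ∧ Balanced C ∧ ¬ GroupBalanced C ∧
    ∃ P ∈ C, ∃ z ≠ P, ∀ g, Symm C g → g P = P → g z = z := by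
  have z : ∃ z : H 3, z ≠ P ∧ ∀ g, Symm C g → g P = P → g z = z :=
    ⟨⟨![5 / 4, 0, 0, 3 / 4], by simp [B3]; norm_num⟩, fun e => by
      have := congrArg (·.1 0) e
      norm_num [P] at this, fun g a b => ax g a b _ rfl rfl⟩
  have hP : P ∈ C := (mC (p := (P, 0, 0)) .refl).2 (by simp)
  refine ⟨3, by simp, C, disc _, fun x ⟨l, _, h⟩ d _ => ?_, fun h => ?_, P, hP, z⟩
  · have : {Q ∈ C | ρ x Q = d} = {Q ∈ D (Prod.fst ⁻¹' {0, 2}) | ρ x Q = d} ∪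
        {Q ∈ D (Prod.snd ⁻¹' {1}) | ρ x Q = d} := by
      ext; simp only [C, D, Set.mem_ofPred_eq, Set.mem_union, or_and_right, exists_or]
    rw [this, finsum_mem_union _ (fin _ _ _) (fin _ _ _), (bal h d _).1, (bal h d _).2, add_zero]
    refine Set.disjoint_left.2 ?_
    rintro y ⟨⟨a, a1, a2⟩, -⟩ ⟨⟨b, b1, b2⟩, -⟩
    obtain rfl : a = b := congrArg Prod.snd (uT a2 b2 rfl)
    have := (c3 a2).1
    simp at a1 b1 this
    omega
  obtain ⟨f, f1, f3⟩ := h P hP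
  obtain ⟨z, z1, z2⟩ := z
  exact z1 (f3.le (z2 f f1 (f3.ge rfl)))

end Pool.Agent.Results.MP_906af0_co.Yes
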